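import Pool.Agent.L5helper10.TV.Zs
import Pool.Agent.L5helper10.TV.Ps

/-! The transform `SS κ g0` of the error term as a smoothed prime sum and as a sum over zeros. -/

set_option autoImplicit false

open Complex Filter Topology Set MeasureTheory
open H370 hiding g0

namespace Pool.Agent.L5helper10.CV

open Pool.Agent.L5helper10.TV

/-- swap of sum and integral for the counting function -/
theorem cnt_swap (κ : ℝ) (hκ0 : 0 < κ) (hκ : κ ≤ 1) (K : ℝ → ℂ) (hKc : Continuous K) (C : ℝ) (hC : 0 ≤ C)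
    (hKb : ∀ v, ‖K v‖ ≤ C * Real.exp (-3 * v)) :
    ∫ v : ℝ, (cnt κ v : ℂ) * K v =
      ∑' n : ℕ, lamc n * ∫ v in (Real.log n - κ / 2)..(Real.log n + κ / 2), K v := by
  set I0 : ℕ → Set ℝ := fun n => Icc (Real.log n - κ / 2) (Real.log n + κ / 2) with hI0
  have hmemI : ∀ (n : ℕ) (v : ℝ), v ∈ I0 n ↔ |Real.log n - v| ≤ κ / 2 := by
    intro n v
    simp only [hI0, Set.mem_Icc]
    rw [abs_le]
    constructor
    · rintro ⟨h1, h2⟩; constructor <;> linarith
    · rintro ⟨h1, h2⟩; constructor <;> linarith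
  set T : ℕ → ℝ → ℂ := fun n => (I0 n).indicator (fun v => lamc n * K v) with hT
  have hTint : ∀ n, Integrable (T n) := by
    intro n
    rw [hT]
    simp only
    rw [integrable_indicator_iff measurableSet_Icc]
    exact (continuous_const.mul hKc).continuousOn.integrableOn_Icc
  have hTval : ∀ n, ∫ v, T n v = lamc n * ∫ v in (Real.log n - κ / 2)..(Real.log n + κ / 2), K v := by
    intro n
    rw [hT]
    simp only
    rw [integral_indicator measurableSet_Icc, integral_Icc_eq_integral_Ioc,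
      ← intervalIntegral.integral_of_le (by linarith), intervalIntegral.integral_const_mul]
  have hTsum : Summable (fun n => ∫ v, ‖T n v‖) := by
    have hb2 : ∀ n : ℕ, ∫ v, ‖T n v‖ ≤ (C * 8) * (1 / (n : ℝ) ^ 2) := by
      intro n
      rcases Nat.eq_zero_or_pos n with h | h
      · rw [h, hT]
        simp [lamc]
      · have hn : (0 : ℝ) < n := by exact_mod_cast h
        have e1 : ∀ v, ‖T n v‖ ≤ (I0 n).indicator (fun _ => C * 8 * (1 / (n : ℝ) ^ 2)) v := by
          intro v
          rw [hT]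
          simp only
          by_cases hv : v ∈ I0 n
          · rw [Set.indicator_of_mem hv, Set.indicator_of_mem hv, norm_mul]
            have hv2 := (hmemI n v).1 hv
            have a1 : ‖lamc n‖ ≤ n := by
              refine (lamc_norm n).trans (ArithmeticFunction.vonMangoldt_le_log.trans ?_)
              have := Real.log_le_sub_one_of_pos hn
              linarith
            have a2 : ‖K v‖ ≤ C * (8 * (1 / (n : ℝ) ^ 3)) := by
              refine (hKb v).trans (mul_le_mul_of_nonneg_left ?_ hC)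
              have a3 : 1 / (n : ℝ) ^ 3 = Real.exp (-3 * Real.log n) := by
                rw [show -3 * Real.log n = -(3 * Real.log n) by ring, Real.exp_neg, one_div]
                congr 1
                rw [show (3 : ℝ) * Real.log n = ((3 : ℕ) : ℝ) * Real.log n by push_cast; ring, Real.exp_nat_mul,
                  Real.exp_log hn]
              rw [a3]
              have a4 : Real.exp (3 / 2) ≤ 8 := by
                have := exp_half_le
                have h5 : Real.exp (3 / 2) = Real.exp (1 / 2) ^ 3 := by rw [← Real.exp_nat_mul]; norm_num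
                rw [h5]
                calc Real.exp (1 / 2) ^ 3 ≤ 2 ^ 3 := pow_le_pow_left₀ (Real.exp_pos _).le this 3
                  _ = 8 := by norm_num
              calc Real.exp (-3 * v) ≤ Real.exp (3 / 2 + -3 * Real.log n) := by
                    apply Real.exp_le_exp.2
                    have := (abs_le.1 hv2).2
                    linarith
                _ = Real.exp (3 / 2) * Real.exp (-3 * Real.log n) := Real.exp_add _ _
                _ ≤ 8 * Real.exp (-3 * Real.log n) := mul_le_mul_of_nonneg_right a4 (Real.exp_pos _).le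
            calc ‖lamc n‖ * ‖K v‖ ≤ n * (C * (8 * (1 / (n : ℝ) ^ 3))) :=
                  mul_le_mul a1 a2 (norm_nonneg _) hn.le
              _ = C * 8 * (1 / (n : ℝ) ^ 2) := by field_simp
          · rw [Set.indicator_of_notMem hv, Set.indicator_of_notMem hv]; simp
        have e2 : ∫ v, (I0 n).indicator (fun _ => C * 8 * (1 / (n : ℝ) ^ 2)) v = κ * (C * 8 * (1 / (n : ℝ) ^ 2)) := by
          rw [integral_indicator measurableSet_Icc, setIntegral_const, smul_eq_mul]
          congr 1
          rw [measureReal_def, Real.volume_Icc, ENNReal.toReal_ofReal (by linarith)]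
          ring
        have e3 : ∫ v, ‖T n v‖ ≤ κ * (C * 8 * (1 / (n : ℝ) ^ 2)) := by
          rw [← e2]
          apply integral_mono (hTint n).norm _ e1
          rw [integrable_indicator_iff measurableSet_Icc]
          exact continuous_const.continuousOn.integrableOn_Icc
        refine e3.trans ?_
        have : 0 ≤ C * 8 * (1 / (n : ℝ) ^ 2) := by positivity
        nlinarith
    refine Summable.of_nonneg_of_le (fun n => integral_nonneg fun v => norm_nonneg _) hb2 ?_
    exact sum_inv_sq.mul_left _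
  have h1 : ∑' n : ℕ, ∫ v, T n v = ∫ v, ∑' n : ℕ, T n v :=
    integral_tsum_of_summable_integral_norm hTint hTsum
  simp_rw [hTval] at h1
  rw [h1]
  apply integral_congr_ae
  refine Eventually.of_forall fun v => ?_
  simp only
  have h2 : ∀ n, T n v = ((if |Real.log n - v| ≤ κ / 2 then ArithmeticFunction.vonMangoldt n else 0 : ℝ) : ℂ) * K v := by
    intro n
    rw [hT]
    simp only
    by_cases hv : v ∈ I0 n
    · rw [Set.indicator_of_mem hv, if_pos ((hmemI n v).1 hv)]; rfl
    · rw [Set.indicator_of_notMem hv, if_neg (fun h => hv ((hmemI n v).2 h))]; simp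
  simp_rw [h2]
  rw [tsum_mul_right]
  congr 1
  rw [← Complex.ofReal_tsum]
  rfl

lemma gg_norm (u t y : ℝ) : ‖gg u t y‖ = Real.exp (-(u - y) ^ 2 / 2) := by
  unfold gg
  rw [norm_mul, Complex.norm_real, Real.norm_of_nonneg (Real.exp_pos _).le]
  have : cexp (I * t * (u - y)) = cexp (((t * (u - y) : ℝ) : ℂ) * I) := by push_cast; congr 1; ring
  rw [this, Complex.norm_exp_ofReal_mul_I, one_mul]

lemma gg_cont (u t : ℝ) : Continuous (gg u t) := by
  unfold gg
  fun_prop

lemma gg_shift (u t w y : ℝ) : gg u t (y + w) = gg (u - w) t y := by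
  unfold gg
  push_cast
  congr 2
  · ring
  · congr 1
    ring

/-- the kernel of the smoothed sum -/
noncomputable def KG (u t v : ℝ) : ℂ := (Real.exp (-v / 2) : ℂ) * gg u t v

lemma KG_cont (u t : ℝ) : Continuous (KG u t) := by
  have := gg_cont u t
  unfold KG
  fun_prop

lemma KG_bd (u t v : ℝ) : ‖KG u t v‖ ≤ Real.exp (5 / 2 * u + 25 / 8) * Real.exp (-3 * v) := by
  unfold KG
  rw [norm_mul, Complex.norm_real, Real.norm_of_nonneg (Real.exp_pos _).le, gg_norm, ← Real.exp_add, ← Real.exp_add]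
  apply Real.exp_le_exp.2
  nlinarith [sq_nonneg ((u - v) + 5 / 2)]

/-- the main term -/
noncomputable def M0 (u t : ℝ) : ℂ := ∫ v : ℝ, (Real.exp (v / 2) : ℂ) * gg u t v

lemma M0_eq (u t : ℝ) (v : ℝ) : (Real.exp (v / 2) : ℂ) * gg u t v =
    cexp (-(1 / 2 : ℂ) * v ^ 2 + (1 / 2 - I * t + u) * v + (I * t * u - u ^ 2 / 2)) := by
  unfold gg
  rw [Complex.ofReal_exp, Complex.ofReal_exp, ← Complex.exp_add, ← Complex.exp_add]
  congr 1
  push_cast
  ring

lemma M0_int (u t : ℝ) : Integrable (fun v : ℝ => (Real.exp (v / 2) : ℂ) * gg u t v) := by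
  simp_rw [M0_eq]
  exact integrable_cexp_quadratic (by norm_num) _ _

lemma M0_norm (u t : ℝ) : ‖M0 u t‖ ≤ 4 * Real.exp (u / 2 - t ^ 2 / 2) := by
  unfold M0
  simp_rw [M0_eq]
  rw [integral_cexp_quadratic (by norm_num), norm_mul, Complex.norm_exp]
  have e1 : ((I * t * u - u ^ 2 / 2 : ℂ) - (1 / 2 - I * t + u) ^ 2 / (4 * -(1 / 2 : ℂ))).re =
      u / 2 + 1 / 8 - t ^ 2 / 2 := by
    have : ((I * t * u - u ^ 2 / 2 : ℂ) - (1 / 2 - I * t + u) ^ 2 / (4 * -(1 / 2 : ℂ))) =
        ((u / 2 + 1 / 8 - t ^ 2 / 2 : ℝ) : ℂ) + ((-(t / 2) : ℝ) : ℂ) * I := by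
      push_cast
      linear_combination ((t : ℂ) ^ 2 / 2) * Complex.I_sq
    rw [this, Complex.add_re, Complex.ofReal_re, Complex.re_ofReal_mul]
    simp
  have e2 : ‖((Real.pi : ℂ) / -(-(1 / 2 : ℂ))) ^ (1 / 2 : ℂ)‖ ≤ 3 := by
    have h1 : ((Real.pi : ℂ) / -(-(1 / 2 : ℂ))) = ((2 * Real.pi : ℝ) : ℂ) := by push_cast; ring
    rw [h1, Complex.norm_cpow_eq_rpow_re_of_pos (by positivity)]
    have h2 : (1 / 2 : ℂ).re = 1 / 2 := by simp
    rw [h2, ← Real.sqrt_eq_rpow, Real.sqrt_le_left (by norm_num)]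
    nlinarith [Real.pi_lt_d2]
  rw [e1]
  have e3 : Real.exp (u / 2 + 1 / 8 - t ^ 2 / 2) ≤ 4 / 3 * Real.exp (u / 2 - t ^ 2 / 2) := by
    rw [show u / 2 + 1 / 8 - t ^ 2 / 2 = 1 / 8 + (u / 2 - t ^ 2 / 2) by ring, Real.exp_add]
    apply mul_le_mul_of_nonneg_right _ (Real.exp_pos _).le
    have h3 : Real.exp (1 / 8) ^ 8 = Real.exp 1 := by rw [← Real.exp_nat_mul]; norm_num
    have h4 := Real.exp_one_lt_d9
    by_contra hc
    push Not at hc
    have h5 : (4 / 3 : ℝ) ^ 8 ≤ Real.exp (1 / 8) ^ 8 := pow_le_pow_left₀ (by norm_num) hc.le 8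
    rw [h3] at h5
    norm_num at h5
    linarith
  calc _ ≤ 3 * (4 / 3 * Real.exp (u / 2 - t ^ 2 / 2)) := by gcongr
    _ = _ := by ring

lemma fkKG_int (κ u t : ℝ) (hκ0 : 0 ≤ κ) (hκ : κ ≤ 1) : Integrable (fun v : ℝ => (cnt κ v : ℂ) * KG u t v) := by
  have h1 : Integrable (fun v : ℝ => (fw κ g0 u v : ℂ) * cexp (I * t * (u - v))) := SS_int κ hκ0 hκ win_g0 u t
  have h2 : Integrable (fun v : ℝ => ((2 * Real.sinh (κ / 2) : ℝ) : ℂ) * ((Real.exp (v / 2) : ℂ) * gg u t v)) :=
    (M0_int u t).const_mul _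
  refine (h1.add h2).congr (Eventually.of_forall fun v => ?_)
  simp only [Pi.add_apply]
  unfold fw KG gg fk g0
  have e1 : Real.exp (v / 2) = Real.exp (-v / 2) * Real.exp v := by rw [← Real.exp_add]; congr 1; ring
  rw [e1]
  push_cast
  ring

theorem SS_eq1 (κ u t : ℝ) (hκ0 : 0 < κ) (hκ : κ ≤ 1) : SS κ g0 u t =
    (∑' n : ℕ, lamc n * ∫ v in (Real.log n - κ / 2)..(Real.log n + κ / 2), KG u t v) -
      ((2 * Real.sinh (κ / 2) : ℝ) : ℂ) * M0 u t := by
  rw [← cnt_swap κ hκ0 hκ (KG u t) (KG_cont u t) _ (Real.exp_pos _).le (KG_bd u t)]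
  unfold M0
  rw [← integral_const_mul, ← integral_sub (fkKG_int κ u t hκ0.le hκ) ((M0_int u t).const_mul _)]
  unfold SS
  apply integral_congr_ae
  refine Eventually.of_forall fun v => ?_
  simp only
  unfold fw KG gg fk g0
  have e1 : Real.exp (v / 2) = Real.exp (-v / 2) * Real.exp v := by rw [← Real.exp_add]; congr 1; ring
  rw [e1]
  push_cast
  ring

/-- the terms of the smoothed prime sum -/
lemma term_eq (κ u t : ℝ) (n : ℕ) : lamc n * ∫ v in (Real.log n - κ / 2)..(Real.log n + κ / 2), KG u t v =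
    ∫ w in (-(κ / 2))..(κ / 2), (Real.exp (-w / 2) : ℂ) * (lamc n * ((Real.sqrt n : ℂ)⁻¹ * gg (u - w) t (Real.log n))) := by
  rcases Nat.eq_zero_or_pos n with h | h
  · rw [h]
    simp [lamc]
  · have e1 : ∫ v in (Real.log n - κ / 2)..(Real.log n + κ / 2), KG u t v =
        ∫ w in (-(κ / 2))..(κ / 2), KG u t (w + Real.log n) := by
      rw [intervalIntegral.integral_comp_add_right (fun v => KG u t v)]
      congr 1 <;> ring
    rw [e1, ← intervalIntegral.integral_const_mul]
    apply intervalIntegral.integral_congr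
    intro w _
    simp only
    unfold KG
    rw [add_comm w, gg_shift, sqrt_exp n h, show -(Real.log n + w) / 2 = -Real.log n / 2 + -w / 2 by ring, Real.exp_add]
    push_cast
    ring

lemma term_bd (u t w : ℝ) (hw : |w| ≤ 1) (n : ℕ) :
    ‖(Real.exp (-w / 2) : ℂ) * (lamc n * ((Real.sqrt n : ℂ)⁻¹ * gg (u - w) t (Real.log n)))‖ ≤
      2 * Real.exp (3 * (u + 1) + 9 / 2) * (1 / (n : ℝ) ^ 2) := by
  rcases Nat.eq_zero_or_pos n with h | h
  · rw [h]
    simp [lamc]
  · have hn : (0 : ℝ) < n := by exact_mod_cast h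
    have hn1 : (1 : ℝ) ≤ n := by exact_mod_cast h
    rw [norm_mul, norm_mul, norm_mul, gg_norm, norm_inv, Complex.norm_real, Complex.norm_real,
      Real.norm_of_nonneg (Real.exp_pos _).le, Real.norm_of_nonneg (Real.sqrt_nonneg _)]
    have a1 : ‖lamc n‖ ≤ n := by
      refine (lamc_norm n).trans (ArithmeticFunction.vonMangoldt_le_log.trans ?_)
      have := Real.log_le_sub_one_of_pos hn
      linarith
    have a2 : (Real.sqrt n)⁻¹ ≤ 1 := by
      rw [inv_le_one₀ (Real.sqrt_pos.2 hn), Real.one_le_sqrt]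
      exact hn1
    have a3 : 1 / (n : ℝ) ^ 3 = Real.exp (-3 * Real.log n) := by
      rw [show -3 * Real.log n = -(3 * Real.log n) by ring, Real.exp_neg, one_div]
      congr 1
      rw [show (3 : ℝ) * Real.log n = ((3 : ℕ) : ℝ) * Real.log n by push_cast; ring, Real.exp_nat_mul,
        Real.exp_log hn]
    have a4 : Real.exp (-(u - w - Real.log n) ^ 2 / 2) ≤ Real.exp (3 * (u + 1) + 9 / 2) * (1 / (n : ℝ) ^ 3) := by
      rw [a3, ← Real.exp_add]
      apply Real.exp_le_exp.2
      have := (abs_le.1 hw).1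
      nlinarith [sq_nonneg (u - w - Real.log n + 3)]
    have a5 : Real.exp (-w / 2) ≤ 2 := by
      refine (Real.exp_le_exp.2 ?_).trans exp_half_le
      have := (abs_le.1 hw).1
      linarith
    calc Real.exp (-w / 2) * (‖lamc n‖ * ((Real.sqrt n)⁻¹ * Real.exp (-(u - w - Real.log n) ^ 2 / 2))) ≤
          2 * (n * (1 * (Real.exp (3 * (u + 1) + 9 / 2) * (1 / (n : ℝ) ^ 3)))) := by gcongr
      _ = _ := by field_simp

theorem SS_eq (κ u t : ℝ) (hκ0 : 0 < κ) (hκ : κ ≤ 1) : SS κ g0 u t =
    (∫ w in (-(κ / 2))..(κ / 2), (Real.exp (-w / 2) : ℂ) * PP lamc (u - w) t) -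
      ((2 * Real.sinh (κ / 2) : ℝ) : ℂ) * M0 u t := by
  rw [SS_eq1 κ u t hκ0 hκ]
  congr 1
  simp_rw [term_eq]
  have h := intervalIntegral.hasSum_integral_of_dominated_convergence (μ := volume) (a := -(κ / 2)) (b := κ / 2)
    (F := fun (n : ℕ) (w : ℝ) => (Real.exp (-w / 2) : ℂ) * (lamc n * ((Real.sqrt n : ℂ)⁻¹ * gg (u - w) t (Real.log n))))
    (f := fun w : ℝ => (Real.exp (-w / 2) : ℂ) * PP lamc (u - w) t)
    (fun (n : ℕ) (_ : ℝ) => 2 * Real.exp (3 * (u + 1) + 9 / 2) * (1 / (n : ℝ) ^ 2)) ?_ ?_ ?_ ?_ ?_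
  · exact h.tsum_eq
  · intro n
    apply Continuous.aestronglyMeasurable
    unfold gg
    fun_prop
  · intro n
    refine Eventually.of_forall fun w hw => ?_
    apply term_bd
    rw [uIoc_of_le (by linarith)] at hw
    rw [abs_le]
    constructor <;> linarith [hw.1, hw.2]
  · refine Eventually.of_forall fun w _ => ?_
    exact sum_inv_sq.mul_left _
  · exact intervalIntegrable_const
  · refine Eventually.of_forall fun w _ => ?_
    rw [PP_gg]
    exact ((PP_summable (u - w) t).hasSum).mul_left _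

end Pool.Agent.L5helper10.CV
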