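import Pool.Agent.L5helper12.CV.Defs

/-! The sum over the zeros with the exact multiplier against the windowed sum `SP`. -/

set_option autoImplicit false

open Filter Topology Set MeasureTheory Complex H370

namespace Pool.Agent.L5helper10.CV

open Pool.Agent.L5helper10.TV hiding GG
open Pool.Agent.L5helper12.PV
open Pool.Agent.L5helper12.CV
open Pool.Agent.Y744 (mz mz_nonneg)

lemma mem_ZU {U : ℝ} (h : (zsU U).Finite) {s : ℂ} : s ∈ ZU U ↔ s ∈ zsU U := by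
  unfold ZU
  rw [dif_pos h, Set.Finite.mem_toFinset]

lemma re_half (RH : RiemannHypothesis) {U : ℝ} {s : ℂ} (hs : s ∈ zsU U) : s.re = 1 / 2 := by
  obtain ⟨h1, h2, h3, h4⟩ := hs
  have h5 := abs_lt.1 h3
  exact A2.rh_line RH (show s ∈ zset riemannZeta (-U) U from ⟨h1, h2, h5.1, h5.2.le, h4⟩)

lemma exp_inv (t : ℝ) (ht : 8 ≤ t) : Real.exp (-t ^ 2 / 16) ≤ 1 / t := by
  have h1 : t ≤ Real.exp (t / 2) := by
    have h2 := Real.add_one_le_exp (t / 4)
    have h3 : Real.exp (t / 2) = Real.exp (t / 4) ^ 2 := by rw [← Real.exp_nat_mul]; congr 1; push_cast; ring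
    rw [h3]
    nlinarith [sq_nonneg (1 - t / 4)]
  have h4 : Real.exp (t / 2) ≤ Real.exp (t ^ 2 / 16) := Real.exp_le_exp.2 (by nlinarith)
  rw [neg_div, Real.exp_neg, ← one_div]
  exact one_div_le_one_div_of_le (by linarith) (h1.trans h4)

lemma ev_T : ∀ᶠ T : ℝ in atTop, 8 ≤ T ∧ 1 ≤ Real.log T ∧ 8 ≤ T / Real.log T ^ 2 ∧ 2 * (T * Real.log T ^ 2) ≤ T ^ 2 := by
  have h1 : Tendsto (fun T : ℝ => Real.log T ^ 2 / T) atTop (𝓝 0) := by
    have h2 := isLittleO_log_rpow_atTop (r := (1 / 2 : ℝ)) (by norm_num)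
    have h3 := h2.pow (n := 2) (by norm_num)
    have h4 : (fun x : ℝ => Real.log x ^ 2) =o[atTop] fun x : ℝ => x := by
      refine h3.congr' (Eventually.of_forall fun _ => rfl) ?_
      filter_upwards [eventually_gt_atTop 0] with x hx
      rw [← Real.rpow_natCast, ← Real.rpow_mul hx.le]
      norm_num
    exact h4.tendsto_div_nhds_zero
  filter_upwards [h1.eventually_le_const (show (0 : ℝ) < 1 / 8 by norm_num), eventually_ge_atTop 8,
    Real.tendsto_log_atTop.eventually_ge_atTop 1] with T h5 h6 h7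
  have hT : 0 < T := by linarith
  have hL : 0 < Real.log T ^ 2 := by positivity
  have h8 : Real.log T ^ 2 ≤ 1 / 8 * T := by rwa [div_le_iff₀ hT] at h5
  refine ⟨h6, h7, ?_, ?_⟩
  · rw [le_div_iff₀ hL]; linarith
  · nlinarith

theorem Zsum_SP_of (RH : RiemannHypothesis)
    (Mk_le : ∀ κ : ℝ, 0 < κ → κ ≤ 1 → ∀ z : ℂ, -1 / 2 ≤ z.re → z.re ≤ 3 / 2 → ‖Mk κ z‖ ≤ 6 * mn κ z.im)
    (Mk_mk0 : ∀ κ : ℝ, 0 < κ → κ ≤ 1 → ∀ γ t : ℝ,
      ‖Mk κ (⟨1 / 2, γ⟩ : ℂ) - (mk0 κ t : ℂ)‖ ≤ 16 * κ * (1 + |γ - t|) / (1 + |t|))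
    (Lsum : ∃ C : ℝ, 0 < C ∧ ∀ U t : ℝ,
      ∑ s ∈ ZU U, mz s * Real.exp (-(s.im - t) ^ 2 / 4) ≤ C * Real.log (3 + |t|)) :
    ∃ C : ℝ, 0 ≤ C ∧ ∀ᶠ T in atTop, ∀ κ u t U : ℝ, 0 < κ → κ ≤ 1 →
      T / Real.log T ^ 2 ≤ t → t ≤ T * Real.log T ^ 2 → T ^ 2 < U → (zsU U).Finite →
      ‖(∑ s ∈ ZU U, (mult riemannZeta s : ℂ) * (hh u t s * Mk κ s)) - (mk0 κ t : ℂ) * SP (Zw T) u t‖ ≤
        C * (κ * Real.log T / t) := by
  classical
  obtain ⟨C1, hC1, hL⟩ := Lsum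
  refine ⟨96 * C1, by positivity, ?_⟩
  filter_upwards [ev_T] with T hT κ u t U hκ0 hκ ht1 ht2 hU hfin
  obtain ⟨hT8, hL1, hTL, hTL2⟩ := hT
  have ht8 : 8 ≤ t := hTL.trans ht1
  have ht0 : 0 < t := by linarith
  have hsub : Zw T ⊆ ZU U := by
    intro s hs
    rw [mem_Zw] at hs
    rw [mem_ZU hfin]
    obtain ⟨h1, h2, h3, h4, h5⟩ := hs
    exact ⟨h1, h2, by rw [abs_lt]; constructor <;> nlinarith, h5⟩
  have e1 : (mk0 κ t : ℂ) * SP (Zw T) u t = ∑ s ∈ ZU U, if s ∈ Zw T then (mk0 κ t : ℂ) *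
      ((mz s : ℂ) * (cexp (I * u * (s.im : ℂ)) * cexp (-((s.im : ℂ) - t) ^ 2 / 2))) else 0 := by
    rw [Finset.sum_ite_mem, Finset.inter_eq_right.2 hsub]
    unfold SP Y750.OM.GG
    rw [Finset.mul_sum]
  rw [e1, ← Finset.sum_sub_distrib]
  refine (norm_sum_le _ _).trans ?_
  have hterm : ∀ s ∈ ZU U, ‖(mult riemannZeta s : ℂ) * (hh u t s * Mk κ s) - (if s ∈ Zw T then (mk0 κ t : ℂ) *
      ((mz s : ℂ) * (cexp (I * u * (s.im : ℂ)) * cexp (-((s.im : ℂ) - t) ^ 2 / 2))) else 0)‖ ≤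
      32 * κ / t * (mz s * Real.exp (-(s.im - t) ^ 2 / 4)) := by
    intro s hs
    have hs' := (mem_ZU hfin).1 hs
    have hre := re_half RH hs'
    have hm := mz_nonneg s
    have hse : s = (⟨1 / 2, s.im⟩ : ℂ) := Complex.ext hre rfl
    have e2 : (mult riemannZeta s : ℂ) * (hh u t s * Mk κ s) = Mk κ s *
        ((mz s : ℂ) * (cexp (I * u * (s.im : ℂ)) * cexp (-((s.im : ℂ) - t) ^ 2 / 2))) := by
      rw [hh_rh s hre]
      unfold mz
      push_cast
      ring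
    rw [e2]
    by_cases hZ : s ∈ Zw T
    · rw [if_pos hZ, ← sub_mul, norm_mul, term_norm]
      have h5 := Mk_mk0 κ hκ0 hκ s.im t
      rw [← hse] at h5
      have h6 := one_add_exp (s.im - t)
      have h7 : 16 * κ * (1 + |s.im - t|) / (1 + |t|) ≤ 16 * κ / t * (1 + |s.im - t|) := by
        rw [abs_of_pos ht0, mul_comm (16 * κ / t), ← mul_div_assoc, mul_comm (16 * κ)]
        apply div_le_div_of_nonneg_left (by positivity) ht0 (by linarith)
      calc ‖Mk κ s - (mk0 κ t : ℂ)‖ * (mz s * Real.exp (-(s.im - t) ^ 2 / 2)) ≤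
            16 * κ / t * (1 + |s.im - t|) * (mz s * Real.exp (-(s.im - t) ^ 2 / 2)) :=
            mul_le_mul_of_nonneg_right (h5.trans h7) (by positivity)
        _ = 16 * κ / t * mz s * ((1 + |s.im - t|) * Real.exp (-(s.im - t) ^ 2 / 2)) := by ring
        _ ≤ 16 * κ / t * mz s * (2 * Real.exp (-(s.im - t) ^ 2 / 4)) := mul_le_mul_of_nonneg_left h6 (by positivity)
        _ = _ := by ring
    · rw [if_neg hZ, sub_zero, norm_mul, term_norm]
      have h5 := Mk_le κ hκ0 hκ s (by rw [hre]; norm_num) (by rw [hre]; norm_num)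
      have h6 : ‖Mk κ s‖ ≤ 6 * κ := h5.trans (mul_le_mul_of_nonneg_left (min_le_left _ _) (by norm_num))
      have hfar : t / 2 ≤ |s.im - t| := by
        by_contra hc
        push Not at hc
        rw [abs_lt] at hc
        apply hZ
        rw [mem_Zw]
        exact ⟨hs'.1, hs'.2.1, by linarith [hc.1], by linarith [hc.2], hs'.2.2.2⟩
      have h7 : Real.exp (-(s.im - t) ^ 2 / 2) ≤ 1 / t * Real.exp (-(s.im - t) ^ 2 / 4) := by
        have h8 : Real.exp (-(s.im - t) ^ 2 / 2) = Real.exp (-(s.im - t) ^ 2 / 4) * Real.exp (-(s.im - t) ^ 2 / 4) := by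
          rw [← Real.exp_add]; congr 1; ring
        rw [h8]
        apply mul_le_mul_of_nonneg_right _ (Real.exp_pos _).le
        refine le_trans (Real.exp_le_exp.2 ?_) (exp_inv t ht8)
        have : (t / 2) ^ 2 ≤ (s.im - t) ^ 2 := by
          rw [← sq_abs (s.im - t)]
          exact pow_le_pow_left₀ (by positivity) hfar 2
        linarith
      calc ‖Mk κ s‖ * (mz s * Real.exp (-(s.im - t) ^ 2 / 2)) ≤
            6 * κ * (mz s * (1 / t * Real.exp (-(s.im - t) ^ 2 / 4))) := by gcongr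
        _ = 6 * κ / t * (mz s * Real.exp (-(s.im - t) ^ 2 / 4)) := by ring
        _ ≤ 32 * κ / t * (mz s * Real.exp (-(s.im - t) ^ 2 / 4)) := by gcongr; norm_num
  refine (Finset.sum_le_sum hterm).trans ?_
  rw [← Finset.mul_sum]
  have h9 : Real.log (3 + |t|) ≤ 3 * Real.log T := by
    rw [abs_of_pos ht0, show 3 * Real.log T = ((3 : ℕ) : ℝ) * Real.log T by norm_num, ← Real.log_pow]
    apply Real.log_le_log (by linarith)
    nlinarith
  calc 32 * κ / t * ∑ s ∈ ZU U, mz s * Real.exp (-(s.im - t) ^ 2 / 4) ≤ 32 * κ / t * (C1 * (3 * Real.log T)) := by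
        gcongr
        exact (hL U t).trans (by gcongr)
    _ = _ := by ring

end Pool.Agent.L5helper10.CV
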